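import Pool.Agent.H690R3.Itm.Suff

open Pool.Agent.H690R3.Itm

/-- Full answer to Q1: for a finite graph `H`, clique-width is bounded on the class of (finite)
`H`-induced-topological-minor-free graphs if and only if `H` is isomorphic to an induced subgraph of
the path `P4`, of the paw, or of the diamond. -/
theorem Pool.Agent.Results.MP_d0d08e_co.Classification.result :
    ∀ (W : Type) [Finite W] (H : SimpleGraph W),
      Pool.Agent.H690R3.Itm.BddCw H ↔
        IndSub H P4 ∨ IndSub H Pool.Agent.H175R2.paw ∨ IndSub H Pool.Agent.H175R2.diamond :=
  fun _ _ H => ⟨fun h => necessity H h, fun h => sufficiency h⟩
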